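import Pool.Agent.Q188.Quasi.Final

/-!
# MP_c5a4a7_gt, Q1: infinitely many simple closed quasigeodesics through vertices

The regular tetrahedron carries infinitely many simple closed quasigeodesics which pass through
(the same two) vertices.  Hence there is no bound `f(n)` in terms of the number of vertices: already
`f(4)` does not exist.

Idea.  The plane folds onto the surface of the regular tetrahedron with the vertices `(1,1,1)`,
`(1,-1,-1)`, `(-1,1,-1)`, `(-1,-1,1)` by `(s, t) ↦ (W t, W s, W (s + t))` with the triangle wave `W`
of period `2`.  The images of the segments from `(0,0)` to `(1, 2n)` and to `(1, 2n+2)` are geodesic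
arcs with common end points, which meet nowhere else.  All vertices have the total angle `π`, so that
the closed curve formed by the two arcs is a quasigeodesic for every `n`.
-/

set_option autoImplicit false

namespace Pool.Agent.Results.MP_c5a4a7_gt.InfinitelyMany

open Set Q188.Quasi

/-- **There is a nondegenerate tetrahedron whose surface carries infinitely many simple closed
quasigeodesics passing through a vertex.** -/
theorem result : ∃ A : Fin 4 → EuclideanSpace ℝ (Fin 3), AffineIndependent ℝ A ∧
    {C : Set (EuclideanSpace ℝ (Fin 3)) | ∃ (γ : ℝ → EuclideanSpace ℝ (Fin 3)) (T : ℝ),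
      SimpleClosedQuasigeodesic A γ T ∧ C = range γ ∧ ∃ i, A i ∈ C}.Infinite :=
  ⟨Reg, reg_indep, Set.infinite_of_injective_forall_mem range_inj fun n =>
    ⟨cv n, 2, scq n, rfl, 0, reg_zero_mem n⟩⟩

end Pool.Agent.Results.MP_c5a4a7_gt.InfinitelyMany
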